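import Mathlib

/-!
# Supersaturation for weighted independent sets: small forbidden edges

For all integers `3 ≤ f ≤ f'` and `h` and every real `β ≥ 0` with `f < h - β` there is a hereditary
family of `(h, f, f')`-bounded pairs satisfying all the hypotheses for which the bound
`e(F) ≥ c k ^ (f / (h - β))` fails; no exponent above `2 / (h - β - f + 2)` is possible.

The pairs: a core `C` of `f - 2` vertices and `h - f + 2` classes; the edges of `H` are the sets
`C ∪ T` with `T` a transversal of the classes, and those of `F` the sets `C ∪ {x, y}` with `x ≠ y`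
in one class.
-/

set_option autoImplicit false

namespace Pool.Agent.Results.MP_362e7f_co.NoSmallEdges

open Finset

/-- A pair of hypergraphs (with repeated edges allowed) on a common finite vertex set. -/
structure HPair where
  /-- the vertex set -/
  V : Finset ℕ
  /-- the edges of the first hypergraph -/
  H : Multiset (Finset ℕ)
  /-- the edges of the second hypergraph -/
  F : Multiset (Finset ℕ)
  hH : ∀ e ∈ H, e ⊆ V
  hF : ∀ e ∈ F, e ⊆ V

/-- The edges inside `S`. -/
def inside (M : Multiset (Finset ℕ)) (S : Finset ℕ) : Multiset (Finset ℕ) :=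
  M.filter fun e => e ⊆ S

/-- The pair induced on `S`, for `S` a subset of the vertex set. -/
def HPair.restrict (P : HPair) (S : Finset ℕ) : HPair where
  V := S
  H := inside P.H S
  F := inside P.F S
  hH := fun _ he => (Multiset.mem_filter.1 he).2
  hF := fun _ he => (Multiset.mem_filter.1 he).2

/-- `α_H(F)`: the largest number of edges of `H` in a set that is independent in `F`. -/
def HPair.alpha (P : HPair) : ℕ :=
  (P.V.powerset.filter fun I => (inside P.F I).card = 0).sup fun I => (inside P.H I).card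

/-- `(h, f, f')`-bounded pairs. -/
def HPair.Bounded (P : HPair) (h f f' : ℕ) : Prop :=
  (∀ e ∈ P.H, e.card ≤ h) ∧ ∀ e ∈ P.F, f ≤ e.card ∧ e.card ≤ f'

/-- Hereditary families of pairs. -/
def Hereditary (Q : Set HPair) : Prop := ∀ P ∈ Q, ∀ S ⊆ P.V, P.restrict S ∈ Q

/-- `ex(n, Q)`, the supremum of `α_H(F)` over the pairs of `Q` on `n` vertices. -/
noncomputable def ex (n : ℕ) (Q : Set HPair) : ℕ∞ :=
  ⨆ P ∈ {P ∈ Q | P.V.card = n}, (P.alpha : ℕ∞)

/-- The hypotheses (*). -/
structure Star (Q : Set HPair) (h f f' : ℕ) (β : ℝ) : Prop where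
  f_pos : 0 < f
  f_le : f ≤ f'
  beta_lt : β < h
  hereditary : Hereditary Q
  bounded : ∀ P ∈ Q, P.Bounded h f f'
  ex_le : ∃ K : ℝ, ∀ n : ℕ, 1 ≤ n → ∃ N : ℕ, ex n Q = N ∧ (N : ℝ) ≤ K * (n : ℝ) ^ β
  f_lt : (f : ℝ) < h - β
  not_subset : ∀ P ∈ Q, ∀ e ∈ P.F, ∀ g ∈ P.H, ¬ e ⊆ g

/-- The supersaturation bound with exponent `γ`. -/
def Supersat (Q : Set HPair) (β γ : ℝ) : Prop :=
  ∃ k₀ c : ℝ, 0 < c ∧ ∀ P ∈ Q, ∀ k : ℝ, k₀ ≤ k →
    k * (P.V.card : ℝ) ^ β ≤ (P.H.card : ℝ) → c * k ^ γ ≤ (P.F.card : ℝ)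

/-! ### The family -/

variable {p : ℕ}

/-- The edges `C ∪ T`, `T` a set of `h - |C|` vertices with distinct colours. -/
def Hset (h : ℕ) (C : Finset ℕ) (χ : ℕ → Fin p) (V : Finset ℕ) : Finset (Finset ℕ) :=
  (V.powersetCard h).filter fun e => C ⊆ e ∧ ∀ x ∈ e \ C, ∀ y ∈ e \ C, χ x = χ y → x = y

/-- The edges `C ∪ T`, `T` a set of `f - |C|` vertices with equal colours. -/
def Fset (f : ℕ) (C : Finset ℕ) (χ : ℕ → Fin p) (V : Finset ℕ) : Finset (Finset ℕ) :=
  (V.powersetCard f).filter fun e => C ⊆ e ∧ ∀ x ∈ e \ C, ∀ y ∈ e \ C, χ x = χ y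

/-- The pair given by a core, a colouring and a vertex set. -/
def pair (h f : ℕ) (C : Finset ℕ) (χ : ℕ → Fin p) (V : Finset ℕ) : HPair where
  V := V
  H := (Hset h C χ V).val
  F := (Fset f C χ V).val
  hH := fun _ he => (mem_powersetCard.1 (mem_filter.1 he).1).1
  hF := fun _ he => (mem_powersetCard.1 (mem_filter.1 he).1).1

theorem inside_val (A : Finset (Finset ℕ)) (S : Finset ℕ) :
    inside A.val S = (A.filter fun e => e ⊆ S).val := rfl

theorem restrict_pair (h f : ℕ) (C : Finset ℕ) (χ : ℕ → Fin p) (V S : Finset ℕ) (hS : S ⊆ V) :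
    (pair h f C χ V).restrict S = pair h f C χ S := by
  have h1 : (Hset h C χ V).filter (fun e => e ⊆ S) = Hset h C χ S := by
    ext e
    simp only [Hset, mem_filter, mem_powersetCard]
    constructor
    · rintro ⟨⟨⟨_, h1⟩, h2⟩, h3⟩
      exact ⟨⟨h3, h1⟩, h2⟩
    · rintro ⟨⟨h3, h1⟩, h2⟩
      exact ⟨⟨⟨h3.trans hS, h1⟩, h2⟩, h3⟩
  have h2 : (Fset f C χ V).filter (fun e => e ⊆ S) = Fset f C χ S := by
    ext e
    simp only [Fset, mem_filter, mem_powersetCard]
    constructor
    · rintro ⟨⟨⟨_, h1⟩, h2⟩, h3⟩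
      exact ⟨⟨h3, h1⟩, h2⟩
    · rintro ⟨⟨h3, h1⟩, h2⟩
      exact ⟨⟨⟨h3.trans hS, h1⟩, h2⟩, h3⟩
  unfold HPair.restrict pair
  simp only [inside_val, h1, h2]

/-- The family of all these pairs. -/
def fam (h f p : ℕ) : Set HPair :=
  {P | ∃ (C : Finset ℕ) (χ : ℕ → Fin p) (V : Finset ℕ), C.card = f - 2 ∧ P = pair h f C χ V}

theorem card_inside_le_one {h f : ℕ} (hf : 3 ≤ f) (hh : f < h) {C : Finset ℕ}
    (hC : C.card = f - 2) (χ : ℕ → Fin (h + 2 - f)) (V I : Finset ℕ) (_hIV : I ⊆ V)
    (hI : (inside (pair h f C χ V).F I).card = 0) :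
    (inside (pair h f C χ V).H I).card ≤ 1 := by
  have hI' : (Fset f C χ V).filter (fun e => e ⊆ I) = ∅ := by
    rw [← Finset.card_eq_zero]
    exact hI
  have : ((Hset h C χ V).filter (fun e => e ⊆ I)).card ≤ 1 := by
    rw [card_le_one]
    intro a ha b hb
    simp only [Hset, mem_filter, mem_powersetCard] at ha hb
    obtain ⟨⟨⟨haV, hac⟩, haC, hainj⟩, haI⟩ := ha
    obtain ⟨⟨⟨hbV, hbc⟩, hbC, hbinj⟩, hbI⟩ := hb
    -- every vertex of `a \ C` lies in `b`
    have key : a \ C ⊆ b \ C := by
      intro x hx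
      -- `χ` maps `b \ C` onto all colours
      have hsurj : (b \ C).image χ = univ := by
        apply eq_univ_of_card
        rw [card_image_of_injOn (fun u hu v hv huv => hbinj u hu v hv huv),
          card_sdiff_of_subset hbC, hbc, hC, Fintype.card_fin]
        omega
      have hxm : χ x ∈ (b \ C).image χ := by rw [hsurj]; exact mem_univ _
      obtain ⟨y, hy, hyx⟩ := mem_image.1 hxm
      by_cases hxy : x = y
      · rw [hxy]; exact hy
      exfalso
      rw [mem_sdiff] at hx hy
      have hmem : C ∪ {x, y} ∈ (Fset f C χ V).filter (fun e => e ⊆ I) := by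
        simp only [Fset, mem_filter, mem_powersetCard]
        refine ⟨⟨⟨?_, ?_⟩, subset_union_left, ?_⟩, ?_⟩
        · apply union_subset (haC.trans haV)
          intro z hz
          rw [mem_insert, mem_singleton] at hz
          rcases hz with rfl | rfl
          · exact haV hx.1
          · exact hbV hy.1
        · rw [card_union_of_disjoint, hC, card_pair hxy]
          · omega
          · rw [disjoint_right]
            intro z hz
            rw [mem_insert, mem_singleton] at hz
            rcases hz with rfl | rfl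
            · exact hx.2
            · exact hy.2
        · have hsub : ∀ z ∈ (C ∪ {x, y}) \ C, χ z = χ x := by
            intro z hz
            rw [mem_sdiff, mem_union, mem_insert, mem_singleton] at hz
            rcases hz with ⟨hz | rfl | rfl, hz'⟩
            · exact absurd hz hz'
            · rfl
            · exact hyx
          intro u hu v hv
          rw [hsub u hu, hsub v hv]
        · apply union_subset (haC.trans haI)
          intro z hz
          rw [mem_insert, mem_singleton] at hz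
          rcases hz with rfl | rfl
          · exact haI hx.1
          · exact hbI hy.1
      rw [hI'] at hmem
      exact absurd hmem (notMem_empty _)
    have hab : a ⊆ b := by
      intro x hx
      by_cases hxC : x ∈ C
      · exact hbC hxC
      · exact (mem_sdiff.1 (key (mem_sdiff.2 ⟨hx, hxC⟩))).1
    exact eq_of_subset_of_card_le hab (by rw [hac, hbc])
  exact this

theorem alpha_le_one {h f : ℕ} (hf : 3 ≤ f) (hh : f < h) {P : HPair}
    (hP : P ∈ fam h f (h + 2 - f)) : P.alpha ≤ 1 := by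
  obtain ⟨C, χ, V, hC, rfl⟩ := hP
  unfold HPair.alpha
  apply Finset.sup_le
  intro I hI
  rw [mem_filter, mem_powerset] at hI
  exact card_inside_le_one hf hh hC χ V I hI.1 hI.2

theorem star_fam {h f f' : ℕ} {β : ℝ} (hf : 3 ≤ f) (hff : f ≤ f') (hβ : 0 ≤ β)
    (hlt : (f : ℝ) < h - β) : Star (fam h f (h + 2 - f)) h f f' β := by
  have hh : f < h := by
    have : (f : ℝ) < h := by linarith
    exact_mod_cast this
  refine ⟨by omega, hff, ?_, ?_, ?_, ?_, hlt, ?_⟩
  · have : (0 : ℝ) ≤ f := by positivity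
    linarith
  · rintro P ⟨C, χ, V, hC, rfl⟩ S hS
    exact ⟨C, χ, S, hC, restrict_pair h f C χ V S hS⟩
  · rintro P ⟨C, χ, V, hC, rfl⟩
    constructor
    · intro e he
      have he' : e ∈ Hset h C χ V := he
      rw [Hset, mem_filter, mem_powersetCard] at he'
      exact he'.1.2.le
    · intro e he
      have he' : e ∈ Fset f C χ V := he
      rw [Fset, mem_filter, mem_powersetCard] at he'
      rw [he'.1.2]
      exact ⟨le_rfl, hff⟩
  · refine ⟨1, fun n hn => ?_⟩
    have h1 : ex n (fam h f (h + 2 - f)) ≤ 1 := by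
      unfold ex
      apply iSup₂_le
      intro P hP
      exact_mod_cast alpha_le_one hf hh hP.1
    have h2 : ex n (fam h f (h + 2 - f)) ≠ ⊤ := by
      intro h3
      rw [h3] at h1
      exact absurd h1 (by decide)
    obtain ⟨N, hN⟩ := ENat.ne_top_iff_exists.1 h2
    refine ⟨N, hN.symm, ?_⟩
    rw [← hN] at h1
    have h4 : N ≤ 1 := by exact_mod_cast h1
    have h5 : (1 : ℝ) ≤ (n : ℝ) ^ β := Real.one_le_rpow (by exact_mod_cast hn) hβ
    have h6 : (N : ℝ) ≤ 1 := by exact_mod_cast h4
    linarith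
  · rintro P ⟨C, χ, V, hC, rfl⟩ e he g hg heg
    have he' : e ∈ Fset f C χ V := he
    have hg' : g ∈ Hset h C χ V := hg
    rw [Fset, mem_filter, mem_powersetCard] at he'
    rw [Hset, mem_filter, mem_powersetCard] at hg'
    have hc : (e \ C).card = 2 := by
      rw [card_sdiff_of_subset he'.2.1, he'.1.2, hC]
      omega
    obtain ⟨x, y, hxy, hxye⟩ := card_eq_two.1 hc
    have hx : x ∈ e \ C := by rw [hxye]; simp
    have hy : y ∈ e \ C := by rw [hxye]; simp
    have h1 := he'.2.2 x hx y hy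
    rw [mem_sdiff] at hx hy
    exact hxy (hg'.2.2 x (mem_sdiff.2 ⟨heg hx.1, hx.2⟩) y (mem_sdiff.2 ⟨heg hy.1, hy.2⟩) h1)

/-! ### Counting -/

/-- The colouring of the vertices outside the core by residues. -/
def col (c p : ℕ) (hp : 0 < p) (x : ℕ) : Fin p := ⟨(x - c) % p, Nat.mod_lt _ hp⟩

theorem card_Hset_ge {h f : ℕ} (hf : 3 ≤ f) (hh : f < h) (m : ℕ) :
    m ^ (h + 2 - f) ≤ (Hset h (range (f - 2)) (col (f - 2) (h + 2 - f) (by omega))
      (range (f - 2 + (h + 2 - f) * m))).card := by
  have hp : 0 < h + 2 - f := by omega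
  set p := h + 2 - f with hpdef
  set c := f - 2 with hcdef
  have h1 : (univ : Finset (Fin p → Fin m)).card = m ^ p := by simp
  rw [← h1]
  -- the vertex of colour `i` chosen by `g`
  have hvx : ∀ (g : Fin p → Fin m) (i : Fin p), c + (p * (g i : ℕ) + i) < c + p * m := by
    intro g i
    have h2 : p * (g i : ℕ) + i < p * (g i + 1) := by
      have := i.2
      rw [Nat.mul_add, Nat.mul_one]
      omega
    have h3 : p * ((g i : ℕ) + 1) ≤ p * m := Nat.mul_le_mul_left _ (g i).2
    omega
  have hcol : ∀ (g : Fin p → Fin m) (i : Fin p), col c p hp (c + (p * (g i : ℕ) + i)) = i := by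
    intro g i
    apply Fin.ext
    simp only [col, Nat.add_sub_cancel_left]
    rw [Nat.mul_add_mod, Nat.mod_eq_of_lt i.2]
  apply card_le_card_of_injOn
    (fun g : Fin p → Fin m => range c ∪ univ.image fun i : Fin p => c + (p * (g i : ℕ) + i))
  · intro g _
    have hdisj : Disjoint (range c) (univ.image fun i : Fin p => c + (p * (g i : ℕ) + i)) := by
      rw [disjoint_left]
      intro x hx hx'
      obtain ⟨i, _, rfl⟩ := mem_image.1 hx'
      rw [mem_range] at hx
      omega
    have hcard : (univ.image fun i : Fin p => c + (p * (g i : ℕ) + i)).card = p := by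
      rw [card_image_of_injective, card_univ, Fintype.card_fin]
      intro i j hij
      have : col c p hp (c + (p * (g i : ℕ) + i)) = col c p hp (c + (p * (g j : ℕ) + j)) :=
        congrArg _ hij
      rwa [hcol, hcol] at this
    rw [mem_coe]
    simp only [Hset, mem_filter, mem_powersetCard]
    refine ⟨⟨?_, ?_⟩, subset_union_left, ?_⟩
    · apply union_subset
      · intro x hx
        rw [mem_range] at hx ⊢
        omega
      · intro x hx
        obtain ⟨i, _, rfl⟩ := mem_image.1 hx
        rw [mem_range]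
        exact hvx g i
    · rw [card_union_of_disjoint hdisj, card_range, hcard]
      omega
    · intro x hx y hy hxy
      have hmem : ∀ z ∈ (range c ∪ univ.image fun i : Fin p => c + (p * (g i : ℕ) + i)) \ range c,
          ∃ i : Fin p, c + (p * (g i : ℕ) + i) = z := by
        intro z hz
        rw [mem_sdiff, mem_union] at hz
        rcases hz with ⟨hz | hz, hz'⟩
        · exact absurd hz hz'
        · obtain ⟨i, _, hi⟩ := mem_image.1 hz
          exact ⟨i, hi⟩
      obtain ⟨i, rfl⟩ := hmem x hx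
      obtain ⟨j, rfl⟩ := hmem y hy
      rw [hcol, hcol] at hxy
      rw [hxy]
  · intro g _ g' _ hgg
    funext i
    have hgg' : range c ∪ (univ.image fun i : Fin p => c + (p * (g i : ℕ) + i)) =
      range c ∪ (univ.image fun i : Fin p => c + (p * (g' i : ℕ) + i)) := hgg
    have hmem : c + (p * (g i : ℕ) + i) ∈
        range c ∪ (univ.image fun i : Fin p => c + (p * (g' i : ℕ) + i)) := by
      rw [← hgg', mem_union]
      right
      exact mem_image.2 ⟨i, mem_univ _, rfl⟩
    rw [mem_union, mem_range] at hmem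
    rcases hmem with hmem | hmem
    · omega
    · obtain ⟨j, _, hj⟩ := mem_image.1 hmem
      have h3 : col c p hp (c + (p * (g' j : ℕ) + j)) = col c p hp (c + (p * (g i : ℕ) + i)) :=
        congrArg _ hj
      rw [hcol, hcol] at h3
      subst h3
      apply Fin.ext
      have h4 : p * (g' j : ℕ) = p * (g j : ℕ) := by omega
      exact (Nat.eq_of_mul_eq_mul_left hp h4).symm

theorem card_Fset_le {h f : ℕ} (hf : 3 ≤ f) (hh : f < h) (m : ℕ) (hm : 1 ≤ m) :
    (Fset f (range (f - 2)) (col (f - 2) (h + 2 - f) (by omega))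
      (range (f - 2 + (h + 2 - f) * m))).card ≤ (h * m) ^ 2 := by
  set V := range (f - 2 + (h + 2 - f) * m) with hV
  have h1 : Fset f (range (f - 2)) (col (f - 2) (h + 2 - f) (by omega)) V ⊆
      (V.powersetCard 2).image fun e => range (f - 2) ∪ e := by
    intro e he
    rw [Fset, mem_filter, mem_powersetCard] at he
    rw [mem_image]
    refine ⟨e \ range (f - 2), ?_, ?_⟩
    · rw [mem_powersetCard]
      refine ⟨sdiff_subset.trans he.1.1, ?_⟩
      rw [card_sdiff_of_subset he.2.1, he.1.2, card_range]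
      omega
    · exact union_sdiff_of_subset he.2.1
  have h2 : V.card ≤ h * m := by
    rw [hV, card_range]
    have e1 : f - 2 ≤ (f - 2) * m := Nat.le_mul_of_pos_right _ hm
    have e2 : (f - 2) * m + (h + 2 - f) * m = h * m := by
      rw [← Nat.add_mul]
      congr 1
      omega
    omega
  calc _ ≤ ((V.powersetCard 2).image fun e => range (f - 2) ∪ e).card := card_le_card h1
    _ ≤ (V.powersetCard 2).card := card_image_le
    _ = V.card.choose 2 := card_powersetCard _ _
    _ ≤ V.card ^ 2 := Nat.choose_le_pow _ _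
    _ ≤ (h * m) ^ 2 := Nat.pow_le_pow_left h2 2

theorem not_supersat {h f : ℕ} {β γ : ℝ} (hf : 3 ≤ f) (hβ : 0 ≤ β)
    (hlt : (f : ℝ) < h - β) (hγ : 2 / ((h : ℝ) - β - f + 2) < γ) :
    ¬ Supersat (fam h f (h + 2 - f)) β γ := by
  have hh : f < h := by
    have : (f : ℝ) < h := by linarith
    exact_mod_cast this
  rintro ⟨k₀, c, hc, hall⟩
  set δ : ℝ := (h : ℝ) - β - f + 2 with hδ
  have hδ0 : 0 < δ := by rw [hδ]; linarith
  have hγ0 : 0 < γ := lt_trans (by positivity) hγ
  have hh0 : (0 : ℝ) < h := by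
    have : 0 < h := by omega
    exact_mod_cast this
  -- the parameter `k` as a function of `m`
  set D : ℝ := (h : ℝ) ^ β with hD
  have hD0 : 0 < D := Real.rpow_pos_of_pos hh0 _
  have hδγ : 2 < δ * γ := by
    rw [div_lt_iff₀ hδ0] at hγ
    linarith
  -- two limits
  have lim1 : Filter.Tendsto (fun m : ℕ => (m : ℝ) ^ δ) Filter.atTop Filter.atTop :=
    (tendsto_rpow_atTop hδ0).comp tendsto_natCast_atTop_atTop
  have lim2 : Filter.Tendsto (fun m : ℕ => (m : ℝ) ^ (δ * γ - 2)) Filter.atTop Filter.atTop :=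
    (tendsto_rpow_atTop (by linarith)).comp tendsto_natCast_atTop_atTop
  obtain ⟨m, ⟨hm1, hm2⟩, hm3⟩ :=
    (((lim1.eventually_ge_atTop (k₀ * D)).and
      (lim2.eventually_gt_atTop (((h : ℝ) ^ 2) * D ^ γ / c))).and
      (Filter.eventually_ge_atTop 1)).exists
  have hm0 : (0 : ℝ) < m := by
    have : 0 < m := hm3
    exact_mod_cast this
  set P : HPair := pair h f (range (f - 2)) (col (f - 2) (h + 2 - f) (by omega))
    (range (f - 2 + (h + 2 - f) * m)) with hP
  have hPm : P ∈ fam h f (h + 2 - f) := ⟨_, _, _, by rw [card_range], hP⟩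
  have hVc : (P.V.card : ℝ) ≤ h * m := by
    have h2 : P.V.card ≤ h * m := by
      have h3 : P.V.card = f - 2 + (h + 2 - f) * m := card_range _
      rw [h3]
      have e1 : f - 2 ≤ (f - 2) * m := Nat.le_mul_of_pos_right _ hm3
      have e2 : (f - 2) * m + (h + 2 - f) * m = h * m := by
        rw [← Nat.add_mul]
        congr 1
        omega
      omega
    exact_mod_cast h2
  have hHc : (m : ℝ) ^ (h + 2 - f) ≤ (P.H.card : ℝ) := by
    have := card_Hset_ge hf hh m
    exact_mod_cast this
  have hFc : (P.F.card : ℝ) ≤ (h * m : ℝ) ^ 2 := by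
    have := card_Fset_le hf hh m hm3
    exact_mod_cast this
  have hpow : (m : ℝ) ^ (h + 2 - f) = (m : ℝ) ^ δ * (m : ℝ) ^ β := by
    rw [← Real.rpow_natCast, ← Real.rpow_add hm0]
    congr 1
    rw [Nat.cast_sub (by omega), hδ]
    push_cast
    ring
  have h1 := hall P hPm ((m : ℝ) ^ δ / D) (by rw [le_div_iff₀ hD0]; exact hm1) (by
    calc (m : ℝ) ^ δ / D * (P.V.card : ℝ) ^ β
        ≤ (m : ℝ) ^ δ / D * ((h : ℝ) * m) ^ β := by
          apply mul_le_mul_of_nonneg_left _ (by positivity)
          exact Real.rpow_le_rpow (by positivity) hVc hβ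
      _ = (m : ℝ) ^ δ * (m : ℝ) ^ β := by
          rw [Real.mul_rpow hh0.le hm0.le, ← hD]
          field_simp
      _ = (m : ℝ) ^ (h + 2 - f) := hpow.symm
      _ ≤ P.H.card := hHc)
  have h2 : ((m : ℝ) ^ δ / D) ^ γ = (m : ℝ) ^ (δ * γ - 2) * (m : ℝ) ^ 2 / D ^ γ := by
    rw [Real.div_rpow (by positivity) hD0.le, ← Real.rpow_mul hm0.le]
    congr 1
    rw [← Real.rpow_natCast, ← Real.rpow_add hm0]
    congr 1
    push_cast
    ring
  have hDγ : 0 < D ^ γ := Real.rpow_pos_of_pos hD0 _
  rw [h2] at h1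
  have h3 := h1.trans hFc
  rw [div_lt_iff₀ hc] at hm2
  have h4 : c * ((m : ℝ) ^ (δ * γ - 2) * (m : ℝ) ^ 2 / D ^ γ) > (h * m : ℝ) ^ 2 := by
    rw [gt_iff_lt, mul_div_assoc', lt_div_iff₀ hDγ]
    have h5 : (0 : ℝ) < (m : ℝ) ^ 2 := by positivity
    have h6 := mul_lt_mul_of_pos_right hm2 h5
    nlinarith
  linarith

/-- **Supersaturation with small forbidden edges fails for all `f ≥ 3`.**  For all integers
`3 ≤ f ≤ f'` and `h` and every real `β ≥ 0` with `f < h - β` there is a hereditary family of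
`(h, f, f')`-bounded pairs that satisfies all the hypotheses (*) and for which the bound
`e(F) ≥ c k ^ (f / (h - β))` fails; in fact the bound `e(F) ≥ c k ^ γ` fails for every
`γ > 2 / (h - β - f + 2)`. -/
theorem result : ∀ (h f f' : ℕ) (β : ℝ), 3 ≤ f → f ≤ f' → 0 ≤ β → (f : ℝ) < h - β →
    ∃ Q : Set HPair, Star Q h f f' β ∧ ¬ Supersat Q β ((f : ℝ) / (h - β)) ∧
      ∀ γ : ℝ, 2 / ((h : ℝ) - β - f + 2) < γ → ¬ Supersat Q β γ := by
  intro h f f' β hf hff hβ hlt
  refine ⟨fam h f (h + 2 - f), star_fam hf hff hβ hlt, ?_, fun γ hγ =>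
    not_supersat hf hβ hlt hγ⟩
  apply not_supersat hf hβ hlt
  have hf' : (3 : ℝ) ≤ f := by exact_mod_cast hf
  rw [div_lt_div_iff₀ (by linarith) (by linarith)]
  have : 0 < ((f : ℝ) - 2) * ((h : ℝ) - β - f) := mul_pos (by linarith) (by linarith)
  nlinarith

end Pool.Agent.Results.MP_362e7f_co.NoSmallEdges
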